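import Pool.Agent.X247.RDom.Memb

/-!
# MP_918064_lc, Q1: `r`-Dominating Set parameterized by the size of a split modulator

Instances are triples `(M, ℓ, L)`: the matrix `M` of a graph `G` on `Fin M.length`, the budget `ℓ`
and a list `L` of the vertices of the modulator. For `r = 2` the problem is W[2]-complete, for
every `r ≥ 3` it is fixed-parameter tractable.
-/

namespace Pool.Agent.Results.MP_918064_lc.RDomSvd

open Pool.Agent.NPC Pool.Agent.H633R2 Pool.Agent.X247.RDom

/-- Parameterized by the number of vertices of a given split modulator, `2`-Dominating Set is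
W[2]-complete and `r`-Dominating Set is fixed-parameter tractable for every `r ≥ 3`. -/
theorem result :
    (InW2 modSize (RDomSplit 2) ∧ W2Hard modSize (RDomSplit 2)) ∧
      ∀ r : ℕ, 3 ≤ r → IsFpt modSize (RDomSplit r) :=
  ⟨⟨Pool.Agent.NPC.X247.RDom.inW2, Pool.Agent.NPC.X247.RDom.w2Hard⟩,
    fun _ hr => Pool.Agent.NPC.X247.RDom.isFpt hr⟩

end Pool.Agent.Results.MP_918064_lc.RDomSvd
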